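import Pool.Agent.N89.BD.Stm

/-!
# Project HX (helper89): Hilbert's irreducibility theorem, uniformly over the rational points of a
semiabelian variety

`K` is a number field, `G = E_1 × ⋯ × E_r × G_m^s`, and `F(P; t; X) = ∑_i F_i(P; t) X^i`, `i ≤ e`, a
polynomial of degree `e` whose coefficients are functions of `P ∈ G` and `t ∈ 𝔸^n`. If for all complex
points `P` of `G` the Galois group of `F(P; t; X)` over `ℂ(t)` is `S_e`, then for 100 % of the integral
`t` the polynomials `F(P; t; X)`, for ALL `P ∈ G(K)`, have the Galois group `S_e` over `K`.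
Definitions and statements of the tasks.
-/

set_option autoImplicit false

namespace Pool.Agent.N89.HX

open Polynomial NumberField Pool.Agent.H901R3.MS Pool.Agent.W659 Pool.Agent.W659.SA
  Pool.Agent.N89.GS Pool.Agent.N89.BD

/-! ### Polynomials of degree `e` and their roots -/

/-- the polynomial `∑ f i X^i` -/
noncomputable def pol {A : Type} [CommRing A] {e : ℕ} (f : Fin (e + 1) → A) : A[X] :=
  ∑ i, C (f i) * X ^ (i : ℕ)

/-- `x` is an enumeration of the `e` different roots of the polynomial `∑ f i X^i` of degree `e` -/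
def Roots {K M : Type} [Field K] [Field M] (ψ : K →+* M) {e : ℕ} (f : Fin (e + 1) → K)
    (x : Fin e → M) : Prop :=
  f (Fin.last e) ≠ 0 ∧ Function.Injective x ∧
    (pol f).map ψ = C (ψ (f (Fin.last e))) * ∏ i, (X - C (x i))

/-- the Galois group of `p` is the full symmetric group: `p` is separable of degree `e`, and all the
permutations of its roots come from automorphisms of the algebraic closure -/
def FullGal {K : Type} [Field K] (e : ℕ) (p : K[X]) : Prop :=
  p.natDegree = e ∧ p.Separable ∧ ∀ π : Equiv.Perm (p.rootSet (AlgebraicClosure K)),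
    ∃ τ : AlgebraicClosure K ≃ₐ[K] AlgebraicClosure K,
      ∀ x : p.rootSet (AlgebraicClosure K), τ (x : AlgebraicClosure K) = π x

/-- the Frobenius `x ↦ x^|k|` permutes the roots (suitably numbered) of the polynomial `∑ f i X^i` of
degree `e` over the finite field `k` like `σ` -/
def HasType {k : Type} (Ω : Type) [Field k] [Fintype k] [Field Ω] [Algebra k Ω] {e : ℕ}
    (f : Fin (e + 1) → k) (σ : Equiv.Perm (Fin e)) : Prop :=
  ∃ x : Fin e → Ω, Roots (algebraMap k Ω) f x ∧ ∀ i, x i ^ Fintype.card k = x (σ i)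

/-- the monic polynomial with the roots `f_e x`, `x` a root of `∑ f i X^i` -/
noncomputable def mono {A : Type} [CommRing A] {e : ℕ} (f : Fin (e + 1) → A) : A[X] :=
  X ^ e + ∑ i : Fin e, C (f (Fin.last e) ^ (e - 1 - (i : ℕ)) * f i.castSucc) * X ^ (i : ℕ)

/-- the monic polynomial of degree `e!` with the coefficients `R i (f, ω)` -/
noncomputable def rs {A : Type} [CommRing A] {e : ℕ}
    (R : Fin e.factorial → MvPolynomial (Fin (e + 1) ⊕ Fin e) ℤ) (f : Fin (e + 1) → A)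
    (ω : Fin e → A) : A[X] :=
  X ^ e.factorial + ∑ i : Fin e.factorial, C (MvPolynomial.aeval (Sum.elim f ω) (R i)) * X ^ (i : ℕ)

/-- the universal resolvent: the polynomial with the roots `∑ ω_i W_(τ i)`, `τ ∈ S_e`, where the `W_i`
are the roots of `mono f` -/
structure Res (e : ℕ) where
  R : Fin e.factorial → MvPolynomial (Fin (e + 1) ⊕ Fin e) ℤ
  spec : ∀ (M : Type) [Field M] (f : Fin (e + 1) → M) (ω W : Fin e → M),
    mono f = ∏ i, (X - C (W i)) → rs R f ω = ∏ τ : Equiv.Perm (Fin e), (X - C (∑ i, ω i * W (τ i)))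

/-- the restriction of a polynomial in `n` variables to the line `y + x v`, a polynomial in `x` -/
noncomputable def ln {A : Type} [CommRing A] {n : ℕ} (F : MvPolynomial (Fin n) A) (y v : Fin n → A) :
    A[X] :=
  MvPolynomial.eval₂ C (fun j => C (y j) + C (v j) * X) F

/-- the polynomial `Z^D + ∑ h i j X^j Z^i` in `A[X][Z]` -/
noncomputable def bp {A : Type} [CommRing A] {D B : ℕ} (h : Fin D → Fin (B + 1) → A) : A[X][X] :=
  X ^ D + ∑ i, C (∑ j, C (h i j) * X ^ (j : ℕ)) * X ^ (i : ℕ)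

/-! ### The tasks -/

/-- RES: the universal resolvent exists -/
def S_RES : Prop := ∀ e : ℕ, 2 ≤ e → Nonempty (Res e)

/-- NF: Noether's forms -/
def S_NF : Prop := ∀ D B : ℕ, 1 ≤ D → ∃ (J : Type) (_ : Finite J)
  (Δ : J → MvPolynomial (Fin D × Fin (B + 1)) ℤ), ∀ (Ω : Type) [Field Ω] [IsAlgClosed Ω]
  (h : Fin D → Fin (B + 1) → Ω),
    Irreducible (bp h) ↔ ∃ j, MvPolynomial.aeval (fun ij => h ij.1 ij.2) (Δ j) ≠ 0

/-- WB: the Weil bound, without the fibres which are not separable -/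
def S_WB : Prop := ∀ D B : ℕ, 1 ≤ D → ∃ C₀ : ℕ, ∀ (k Ω : Type) [Field k] [Fintype k] [Field Ω]
  [IsAlgClosed Ω] [Algebra k Ω] [Algebra.IsAlgebraic k Ω] (h : Fin D → Fin (B + 1) → k),
  C₀ ≤ ringChar k → Irreducible (bp (fun i j => algebraMap k Ω (h i j))) →
  (Fintype.card k : ℝ) ≤ (({z : k × k | evalEval z.1 z.2 (bp h) = 0 ∧
    ((bp h).map (evalRingHom z.1)).Separable}.ncard : ℕ) : ℝ) + C₀ * √(Fintype.card k : ℝ)

/-- TSZ: a twisted form of the lemma of Schwartz and Zippel -/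
def S_TSZ : Prop := ∀ (k Ω : Type) [Field k] [Fintype k] [Field Ω] [IsAlgClosed Ω] [Algebra k Ω]
  (e m : ℕ) (σ : Equiv.Perm (Fin e)) (Δ : MvPolynomial (Fin m ⊕ Fin e) k), Δ ≠ 0 →
  Δ.totalDegree < Fintype.card k → ∃ ω : Fin e → Ω, (∀ i, ω i ^ Fintype.card k = ω (σ i)) ∧
    MvPolynomial.eval₂ (MvPolynomial.C.comp (algebraMap k Ω))
      (Sum.elim MvPolynomial.X (fun i => MvPolynomial.C (ω i))) Δ ≠ (0 : MvPolynomial (Fin m) Ω)

/-- ONE: the density theorem for the specialisations of a polynomial over `k(x)` with geometric Galois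
group `S_e` -/
def S_ONE : Prop := ∀ (e : ℕ) (R : Res e) (B : ℕ), 2 ≤ e → ∃ C₀ : ℕ, ∀ (k Ω : Type) [Field k]
  [Fintype k] [Field Ω] [IsAlgClosed Ω] [Algebra k Ω] [Algebra.IsAlgebraic k Ω]
  (g : Fin (e + 1) → k[X]) (σ : Equiv.Perm (Fin e)) (ω : Fin e → Ω), (∀ i, (g i).natDegree ≤ B) →
  C₀ ≤ ringChar k → (∀ i, ω i ^ Fintype.card k = ω (σ i)) →
  Irreducible (rs R.R (fun i => (g i).map (algebraMap k Ω)) (fun i => C (ω i))) →
  (Fintype.card k : ℝ) ≤ (e.factorial : ℝ) *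
    (({x : k | HasType Ω (fun i => (g i).eval x) σ}.ncard : ℕ) : ℝ) + C₀ * √(Fintype.card k : ℝ)

/-- FCH: the density theorem for the specialisations of a polynomial over `k(t_1, …, t_n)` with
geometric Galois group `S_e` -/
def S_FCH : Prop := ∀ (e n d : ℕ) (R : Res e), 2 ≤ e → ∃ q₀ : ℕ, ∀ (k Ω : Type) [Field k]
  [Fintype k] [Field Ω] [IsAlgClosed Ω] [Algebra k Ω] [Algebra.IsAlgebraic k Ω]
  (f : Fin (e + 1) → MvPolynomial (Fin n) k), (∀ i, (f i).totalDegree ≤ d) → q₀ ≤ ringChar k →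
  (∃ (y v : Fin n → Ω) (ω : Fin e → Ω), Irreducible
    (rs R.R (fun i => ln (MvPolynomial.map (algebraMap k Ω) (f i)) y v) (fun i => C (ω i)))) →
  ∀ σ : Equiv.Perm (Fin e), Fintype.card k ^ n ≤
    2 * e.factorial * {t : Fin n → k | HasType Ω (fun i => MvPolynomial.eval t (f i)) σ}.ncard

/-- GEO: the resolvent of a polynomial over `ℂ(x)` with Galois group `S_e` is irreducible -/
def S_GEO : Prop := ∀ (e : ℕ) (R : Res e) (g : Fin (e + 1) → ℂ[X]), 2 ≤ e →
  FullGal e (pol (fun i => algebraMap ℂ[X] (RatFunc ℂ) (g i))) →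
  ∃ ω : Fin e → ℂ, Irreducible (rs R.R g (fun i => C (ω i)))

/-- TRH: transfer of the irreducibility of the resolvents to large characteristic -/
def S_TRH : Prop := ∀ (K : Type) [Field K] [NumberField K] (r s n e : ℕ) (a b : Fin r → ℤ)
  (R : Res e) (F : Fin (e + 1) → Pol (𝓞 K) r s n) (σ : K →+* ℂ), 2 ≤ e →
  (∀ (V : Fin r → Fin 3 → ℂ) (u : Fin s → ℂ), OnB a b V u →
    ∃ (y v : Fin n → ℂ) (ω : Fin e → ℂ), Irreducible
      (rs R.R (fun i => ln (spc (toC σ) (F i) V u) y v) (fun i => C (ω i)))) →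
  ∃ p₁ : ℕ, ∀ p : ℕ, p.Prime → p₁ ≤ p → ∀ (Ω : Type) [Field Ω] [IsAlgClosed Ω] [CharP Ω p]
    (φ : 𝓞 K →+* Ω) (V : Fin r → Fin 3 → Ω) (u : Fin s → Ω), OnB a b V u →
    ∃ (y v : Fin n → Ω) (ω : Fin e → Ω), Irreducible
      (rs R.R (fun i => ln (spc φ (F i) V u) y v) (fun i => C (ω i)))

/-- FRB: the Frobenius elements of the Galois group -/
def S_FRB : Prop := ∀ (K : Type) [Field K] [NumberField K] (k : Type) [Field k] [Fintype k]
  (w : Place K k) (φ : 𝓞 K →+* k), Function.Surjective φ →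
  (∀ x : 𝓞 K, (x : K) ∈ w.A ∧ w.r (x : K) = φ x) →
  ∀ (Ω : Type) [Field Ω] [IsAlgClosed Ω] [Algebra k Ω] (e : ℕ) (f : Fin (e + 1) → K)
  (g : Fin (e + 1) → k) (σ : Equiv.Perm (Fin e)), (∀ i, f i ∈ w.A ∧ w.r (f i) = g i) →
  HasType Ω g σ → ∃ (x : Fin e → AlgebraicClosure K)
    (τ : AlgebraicClosure K ≃ₐ[K] AlgebraicClosure K),
    Roots (algebraMap K (AlgebraicClosure K)) f x ∧ ∀ i, τ (x i) = x (σ i)

/-- GRP: a polynomial whose Galois group contains permutations of all types has Galois group `S_e` -/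
def S_GRP : Prop := ∀ (K : Type) [Field K] (e : ℕ) (f : Fin (e + 1) → K), 2 ≤ e →
  (∀ σ : Equiv.Perm (Fin e), ∃ (x : Fin e → AlgebraicClosure K)
    (τ : AlgebraicClosure K ≃ₐ[K] AlgebraicClosure K),
    Roots (algebraMap K (AlgebraicClosure K)) f x ∧ ∀ i, τ (x i) = x (σ i)) →
  FullGal e (pol f)

/-- PEN: a pencil of polynomials of degree `e` with Galois group `S_e` over `ℂ(x)` -/
def S_PEN : Prop := ∀ e : ℕ, 2 ≤ e → ∃ α β : Fin (e + 1) → ℂ,
  FullGal e (pol (fun i => algebraMap ℂ[X] (RatFunc ℂ) (C (α i) + C (β i) * X)))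

end Pool.Agent.N89.HX
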