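import Pool.Agent.N89.HX.Asm2
import Pool.Agent.N89.BD.Main

/-! Project HX (helper89): from the local types to the Galois group. -/

set_option autoImplicit false

namespace Pool.Agent.N89.HX

open MvPolynomial NumberField Pool.Agent.H901R3.MS Pool.Agent.W659 Pool.Agent.W659.SA
  Pool.Agent.N89.GS Pool.Agent.N89.BD WeierstrassCurve

theorem pol_smul {A : Type} [CommRing A] {e : ℕ} (c : A) (f : Fin (e + 1) → A) :
    pol (fun i => c * f i) = Polynomial.C c * pol f := by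
  unfold pol
  rw [Finset.mul_sum]
  refine Finset.sum_congr rfl fun i _ => ?_
  rw [Polynomial.C_mul, mul_assoc]

theorem roots_smul {K M : Type} [Field K] [Field M] (ψ : K →+* M) {e : ℕ} (f : Fin (e + 1) → K)
    (x : Fin e → M) (c : K) (hc : c ≠ 0) (h : Roots ψ f x) : Roots ψ (fun i => c * f i) x := by
  obtain ⟨h1, h2, h3⟩ := h
  refine ⟨mul_ne_zero hc h1, h2, ?_⟩
  rw [pol_smul, Polynomial.map_mul, Polynomial.map_C, h3, map_mul, Polynomial.C_mul, mul_assoc]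

/-- one permutation -/
theorem frob_step (hFRB : S_FRB) {K : Type} [Field K] [NumberField K] {N r s n e : ℕ}
    (ω : Module.Basis (Fin N) ℤ (𝓞 K)) (a b : Fin r → ℤ) (F : Fin (e + 1) → Pol (𝓞 K) r s n)
    (d : Fin r → ℕ) (hd : ∀ i, MHomog (F i) d) (S p₁ : ℕ) (hS : 1 ≤ S) (hp₁ : S + 1 ≤ p₁)
    (σ : Equiv.Perm (Fin e)) (P : ∀ i, Pt (a i : K) (b i : K)) (u : Fin s → Kˣ)
    (hu : ∀ l, u l ∈ SUn K S) (c : Fin n × Fin N → ℤ) (hc : c ∉ BadT ω a b F p₁ σ P u)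
    (c₂ : Fin r → K) (hc₂ : ∀ i, c₂ i ≠ 0) :
    ∃ (x : Fin e → AlgebraicClosure K) (τ : AlgebraicClosure K ≃ₐ[K] AlgebraicClosure K),
      Roots (algebraMap K (AlgebraicClosure K)) (cf (algebraMap (𝓞 K) K) F
        (fun i j => c₂ i * rep (P i) j) (fun l => ((u l : Kˣ) : K))
        (fun j => ((vec ω c j : 𝓞 K) : K))) x ∧ ∀ i, τ (x i) = x (σ i) := by
  simp only [BadT, Set.mem_setOf_eq, not_forall, not_not] at hc
  obtain ⟨p, hpp, hp, h12, k, _, _, hcard, φ, hφ, w, hw, red, hred, Ω, _, _, _, _, hT⟩ := hc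
  have hchk : CharP k p := charP_of_card hpp hcard
  choose c₁ hc₁0 hc₁ using fun i => t_R7 t_R1 K k w (a i) (b i) (red i) (hred i) (P i)
  have hsu : ∀ l, ((u l : Kˣ) : K) ∈ w.A := fun l =>
    (sun_place hpp hS (by omega) w (fun x => (hw x).1) (hu l)).1
  have hlv := fun i => loc_val w φ hw a b red P c₁ hc₁ (F i) d (hd i)
    (fun l => ((u l : Kˣ) : K)) hsu (vec ω c)
  obtain ⟨x, τ, hx, hτ⟩ := hFRB K k w φ hφ hw Ω e _ _ σ hlv hT
  refine ⟨x, τ, ?_, hτ⟩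
  have hm : (∏ i, c₁ i ^ d i) ≠ 0 := Finset.prod_ne_zero_iff.2 fun i _ => pow_ne_zero _ (hc₁0 i)
  have hm2 : (∏ i, c₂ i ^ d i) ≠ 0 := Finset.prod_ne_zero_iff.2 fun i _ => pow_ne_zero _ (hc₂ i)
  have h1 := roots_smul _ _ x ((∏ i, c₂ i ^ d i) * (∏ i, c₁ i ^ d i)⁻¹)
    (mul_ne_zero hm2 (inv_ne_zero hm)) hx
  convert h1 using 2
  unfold cf
  rw [vl_scale _ (F _) d (hd _)]
  field_simp

theorem bad_sub (hFRB : S_FRB) (hGRP : S_GRP) {K : Type} [Field K] [NumberField K] {N r s n e : ℕ}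
    (ω : Module.Basis (Fin N) ℤ (𝓞 K)) (a b : Fin r → ℤ)
    (hab : ∀ i, a i * b i = 0 ∧ (a i ≠ 0 ∨ b i ≠ 0)) (F : Fin (e + 1) → Pol (𝓞 K) r s n)
    (d : Fin r → ℕ) (hd : ∀ i, MHomog (F i) d) (S p₁ : ℕ) (hS : 1 ≤ S) (hp₁ : S + 1 ≤ p₁)
    (he : 2 ≤ e) :
    Bad ω a b F S ⊆ ⋃ σ : Equiv.Perm (Fin e),
      {c | ∃ (P : ∀ i, Pt (a i : K) (b i : K)) (u : Fin s → Kˣ), (∀ l, u l ∈ SUn K S) ∧
        c ∈ BadT ω a b F p₁ σ P u} := by
  rintro c ⟨V, u, hV, hu, hng⟩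
  have hdisc := disc_ne hab
  have hdL : ∀ i, Disc (a i : K) (b i : K) := fun i =>
    FD.disc_of two_ne_zero (by exact_mod_cast hdisc i)
  choose P c₂ hc0 hc2 using fun i => t_PTSK K (a i) (b i) (V i) (hdL i) (hV i)
  have hVP : V = fun i j => c₂ i * rep (P i) j := by
    funext i j
    exact hc2 i j
  by_contra hcon
  rw [Set.mem_iUnion] at hcon
  push Not at hcon
  apply hng
  refine hGRP K e _ he (fun σ => ?_)
  rw [hVP]
  exact frob_step hFRB ω a b F d hd S p₁ hS hp₁ σ P u hu c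
    (fun h => hcon σ ⟨P, u, hu, h⟩) c₂ hc0

end Pool.Agent.N89.HX
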