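import Pool.Agent.N89.GS.Diag

/-! Project HX (helper89): finite unions of exceptional sets. -/

set_option autoImplicit false

namespace Pool.Agent.N89.HX

open Filter

theorem tendsto_div_log : Tendsto (fun x : ℝ => x / Real.log x) atTop atTop := by
  have h2 : Tendsto (fun x : ℝ => Real.log x / x) atTop (nhds 0) := by
    have := Real.isLittleO_log_id_atTop.tendsto_div_nhds_zero
    exact this
  have h3 : ∀ᶠ x : ℝ in atTop, 0 < Real.log x / x := by
    filter_upwards [eventually_gt_atTop 1] with x hx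
    exact div_pos (Real.log_pos hx) (by linarith)
  have h4 := (tendsto_nhdsWithin_iff.2 ⟨h2, h3⟩).inv_tendsto_nhdsGT_zero
  refine h4.congr fun x => ?_
  simp

/-- a finite union of small sets is small -/
theorem union_bound {X I : Type} [Fintype I] [Nonempty I] (ht : X → ℕ → Prop)
    (hfin : ∀ H, {x | ht x H}.Finite) (n : ℕ) (B : I → Set X)
    (hB : ∀ i, ∃ c : ℝ, 0 < c ∧ ∃ H₀ : ℕ, ∀ H : ℕ, H₀ ≤ H →
      (({x | ht x H ∧ x ∈ B i}.ncard : ℕ) : ℝ) ≤
        (2 * (H : ℝ) + 1) ^ n * Real.exp (-c * (Real.log H / Real.log (Real.log H)))) (A : Set X)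
    (hA : A ⊆ ⋃ i, B i) :
    ∃ c : ℝ, 0 < c ∧ ∃ H₀ : ℕ, ∀ H : ℕ, H₀ ≤ H →
      (({x | ht x H ∧ x ∈ A}.ncard : ℕ) : ℝ) ≤
        (2 * (H : ℝ) + 1) ^ n * Real.exp (-c * (Real.log H / Real.log (Real.log H))) := by
  classical
  choose c hc H₀ hH₀ using hB
  obtain ⟨i₀, -, hi₀⟩ := Finset.exists_min_image (Finset.univ : Finset I) c Finset.univ_nonempty
  set c₁ := c i₀ / 2 with hc₁
  have hc₁0 : 0 < c₁ := half_pos (hc i₀)
  have h1 : Tendsto (fun H : ℕ => Real.log (H : ℝ)) atTop atTop :=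
    Real.tendsto_log_atTop.comp tendsto_natCast_atTop_atTop
  have h2 := (tendsto_div_log.comp h1).eventually_ge_atTop (Real.log (Fintype.card I) / c₁)
  obtain ⟨H₁, hH₁⟩ := eventually_atTop.1 h2
  have h3 := (tendsto_div_log.comp h1).eventually_ge_atTop 0
  obtain ⟨H₂, hH₂⟩ := eventually_atTop.1 h3
  refine ⟨c₁, hc₁0, H₁ + H₂ + ∑ i, H₀ i, fun H hH => ?_⟩
  have hHi : ∀ i, H₀ i ≤ H := fun i => by
    have := Finset.single_le_sum (f := H₀) (fun _ _ => Nat.zero_le _) (Finset.mem_univ i)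
    omega
  have h4 := hH₁ H (by omega)
  have h5 := hH₂ H (by omega)
  simp only [Function.comp_apply] at h4 h5
  set L := Real.log H / Real.log (Real.log H) with hL
  have hsub : {x | ht x H ∧ x ∈ A} ⊆ ⋃ i, {x | ht x H ∧ x ∈ B i} := by
    rintro x ⟨hx, hxA⟩
    obtain ⟨i, hi⟩ := Set.mem_iUnion.1 (hA hxA)
    exact Set.mem_iUnion.2 ⟨i, hx, hi⟩
  have hf : (⋃ i, {x | ht x H ∧ x ∈ B i}).Finite :=
    Set.Finite.subset (hfin H) (Set.iUnion_subset fun i x hx => hx.1)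
  have h6 : {x | ht x H ∧ x ∈ A}.ncard ≤ ∑ i, {x | ht x H ∧ x ∈ B i}.ncard :=
    (Set.ncard_le_ncard hsub hf).trans (by
      have h := Finset.set_ncard_biUnion_le (Finset.univ : Finset I)
        (fun i => {x | ht x H ∧ x ∈ B i})
      simpa using h)
  have hpos : (0 : ℝ) ≤ (2 * (H : ℝ) + 1) ^ n := by positivity
  have h7 : ∀ i, (({x | ht x H ∧ x ∈ B i}.ncard : ℕ) : ℝ) ≤
      (2 * (H : ℝ) + 1) ^ n * Real.exp (-(2 * c₁) * L) := by
    intro i
    refine (hH₀ i H (hHi i)).trans (mul_le_mul_of_nonneg_left (Real.exp_le_exp.2 ?_) hpos)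
    have h8 : 2 * c₁ ≤ c i := by
      rw [hc₁]
      have := hi₀ i (Finset.mem_univ i)
      linarith
    have := mul_le_mul_of_nonneg_right h8 h5
    linarith
  have hcardpos : (0 : ℝ) < Fintype.card I := by exact_mod_cast Fintype.card_pos
  calc (({x | ht x H ∧ x ∈ A}.ncard : ℕ) : ℝ) ≤
        ((∑ i, {x | ht x H ∧ x ∈ B i}.ncard : ℕ) : ℝ) := by exact_mod_cast h6
    _ = ∑ i, (({x | ht x H ∧ x ∈ B i}.ncard : ℕ) : ℝ) := by push_cast; rfl
    _ ≤ ∑ _i : I, (2 * (H : ℝ) + 1) ^ n * Real.exp (-(2 * c₁) * L) :=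
        Finset.sum_le_sum fun i _ => h7 i
    _ = (2 * (H : ℝ) + 1) ^ n * ((Fintype.card I : ℝ) * Real.exp (-(2 * c₁) * L)) := by
        rw [Finset.sum_const, Finset.card_univ, nsmul_eq_mul]
        ring
    _ ≤ (2 * (H : ℝ) + 1) ^ n * Real.exp (-c₁ * L) := by
        refine mul_le_mul_of_nonneg_left ?_ hpos
        have h9 : -c₁ * L = c₁ * L + -(2 * c₁) * L := by ring
        rw [h9, Real.exp_add]
        refine mul_le_mul_of_nonneg_right ?_ (Real.exp_pos _).le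
        rw [← Real.log_le_iff_le_exp hcardpos]
        rw [div_le_iff₀ hc₁0] at h4
        linarith

end Pool.Agent.N89.HX
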