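import Pool.Agent.N89.HX.Stm
import Pool.Agent.N89.BD.Main2a

/-! Project HX (helper89): the sieve, local part. -/

set_option autoImplicit false

namespace Pool.Agent.N89.HX

open MvPolynomial NumberField Pool.Agent.H901R3.MS Pool.Agent.W659 Pool.Agent.W659.SA
  Pool.Agent.N89.GS Pool.Agent.N89.BD WeierstrassCurve

/-- the coefficients of the polynomial `F(V, u; t; X)` -/
noncomputable def cf {O k : Type} [CommRing O] [CommRing k] (φ : O →+* k) {r s n e : ℕ}
    (F : Fin (e + 1) → Pol O r s n) (V : Fin r → Fin 3 → k) (u : Fin s → k) (t : Fin n → k) :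
    Fin (e + 1) → k := fun i => vl φ (F i) V u t

/-- the vectors `c` such that for some `S`-integral point of `G` over `K` the Galois group of
`F(P; c; X)` is not `S_e` -/
def Bad {K : Type} [Field K] [NumberField K] {N r s n e : ℕ} (ω : Module.Basis (Fin N) ℤ (𝓞 K))
    (a b : Fin r → ℤ) (F : Fin (e + 1) → Pol (𝓞 K) r s n) (S : ℕ) : Set (Fin n × Fin N → ℤ) :=
  {c | ∃ (V : Fin r → Fin 3 → K) (u : Fin s → Kˣ), (∀ i, FD.OnE (a i) (b i) (V i)) ∧
    (∀ l, u l ∈ SUn K S) ∧ ¬ FullGal e (pol (cf (algebraMap (𝓞 K) K) F V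
      (fun l => ((u l : Kˣ) : K)) (fun j => ((vec ω c j : 𝓞 K) : K))))}

/-- the vectors `c` such that for no good place the Frobenius acts on the roots like `σ` -/
def BadT {K : Type} [Field K] [NumberField K] {N r s n e : ℕ} (ω : Module.Basis (Fin N) ℤ (𝓞 K))
    (a b : Fin r → ℤ) (F : Fin (e + 1) → Pol (𝓞 K) r s n) (p₁ : ℕ) (σ : Equiv.Perm (Fin e))
    (P : ∀ i, Pt (a i : K) (b i : K)) (u : Fin s → Kˣ) : Set (Fin n × Fin N → ℤ) :=
  {c | ∀ p : ℕ, p.Prime → p₁ ≤ p → 12 ∣ p + 1 → ∀ (k : Type) [Field k] [Fintype k],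
    (Fintype.card k = p ∨ Fintype.card k = p ^ 2) → ∀ φ : 𝓞 K →+* k,
    Function.Surjective φ → ∀ w : Place K k,
    (∀ x : 𝓞 K, (x : K) ∈ w.A ∧ w.r (x : K) = φ x) →
    ∀ red : (∀ i, Pt (a i : K) (b i : K) → Pt (a i : k) (b i : k)),
    (∀ i, IsRed w (a i) (b i) (red i)) →
    ∀ (Ω : Type) [Field Ω] [IsAlgClosed Ω] [Algebra k Ω] [Algebra.IsAlgebraic k Ω],
      ¬ HasType Ω (cf φ F (fun i => rep (red i (P i))) (fun l => w.r (u l : K))
        (fun j => φ (vec ω c j))) σ}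

theorem spc_map {O A B : Type} [CommRing O] [CommRing A] [CommRing B] (φ : O →+* A) (ψ : A →+* B)
    {r s n : ℕ} (F : Pol O r s n) (V : Fin r → Fin 3 → A) (u : Fin s → A) :
    spc (ψ.comp φ) F (fun i j => ψ (V i j)) (fun l => ψ (u l)) = map ψ (spc φ F V u) := by
  unfold spc
  have h := hom_eval₂ F (C.comp φ) (map ψ : MvPolynomial (Fin n) A →+* MvPolynomial (Fin n) B)
    (Sum.elim (fun ij => C (V ij.1 ij.2)) (Sum.elim (fun l => C (u l)) X))
  rw [h]
  congr 1
  · ext x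
    simp
  · funext x
    rcases x with ij | l | i <;> simp

/-- the local bound -/
theorem loc_bound {k Ω : Type} [Field k] [Fintype k] [Field Ω] [IsAlgClosed Ω] [Algebra k Ω]
    [Algebra.IsAlgebraic k Ω] {e n : ℕ} (f : Fin (e + 1) → MvPolynomial (Fin n) k)
    (σ : Equiv.Perm (Fin e))
    (h : Fintype.card k ^ n ≤ 2 * e.factorial *
      {t : Fin n → k | HasType Ω (fun i => MvPolynomial.eval t (f i)) σ}.ncard) :
    ((({t : Fin n → k | ¬ HasType Ω (fun i => MvPolynomial.eval t (f i)) σ}.ncard : ℕ)) : ℝ) ≤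
      (1 - 1 / (2 * (e.factorial : ℝ))) * (Fintype.card k : ℝ) ^ Fintype.card (Fin n) := by
  have hc := Set.ncard_add_ncard_compl
    {t : Fin n → k | HasType Ω (fun i => MvPolynomial.eval t (f i)) σ} (Set.toFinite _)
    (Set.toFinite _)
  rw [Nat.card_eq_fintype_card, Fintype.card_fun, Fintype.card_fin] at hc
  have hc' : {t : Fin n → k | ¬ HasType Ω (fun i => MvPolynomial.eval t (f i)) σ}.ncard =
    {t : Fin n → k | HasType Ω (fun i => MvPolynomial.eval t (f i)) σ}ᶜ.ncard := rfl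
  rw [← hc', ] at hc
  rw [Fintype.card_fin]
  set A := {t : Fin n → k | HasType Ω (fun i => MvPolynomial.eval t (f i)) σ}.ncard
  set B := {t : Fin n → k | ¬ HasType Ω (fun i => MvPolynomial.eval t (f i)) σ}.ncard
  have h1 : (A : ℝ) + B = (Fintype.card k : ℝ) ^ n := by exact_mod_cast hc
  have h2 : (Fintype.card k : ℝ) ^ n ≤ 2 * (e.factorial : ℝ) * A := by exact_mod_cast h
  have h3 : (0 : ℝ) < 2 * (e.factorial : ℝ) := by
    have : (0 : ℝ) < e.factorial := by exact_mod_cast e.factorial_pos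
    linarith
  have h4 : (Fintype.card k : ℝ) ^ n / (2 * (e.factorial : ℝ)) ≤ A := by
    rw [div_le_iff₀ h3]
    linarith
  have h5 : (1 - 1 / (2 * (e.factorial : ℝ))) * (Fintype.card k : ℝ) ^ n =
      (Fintype.card k : ℝ) ^ n - (Fintype.card k : ℝ) ^ n / (2 * (e.factorial : ℝ)) := by
    ring
  rw [h5]
  linarith

/-- the local sets exist -/
theorem locS_hx {K : Type} [Field K] [NumberField K] {N r s n e : ℕ}
    (ω : Module.Basis (Fin N) ℤ (𝓞 K)) (a b : Fin r → ℤ) (F : Fin (e + 1) → Pol (𝓞 K) r s n)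
    (S p₁ : ℕ) (σ : Equiv.Perm (Fin e))
    {p : ℕ} (hpp : p.Prime) (hp : p₁ ≤ p) (h12 : 12 ∣ p + 1)
    {k : Type} [Field k] [Fintype k] (hcard : Fintype.card k = p ∨ Fintype.card k = p ^ 2)
    {φ : 𝓞 K →+* k} (hφ : Function.Surjective φ)
    {w : Place K k} (hw : ∀ x : 𝓞 K, (x : K) ∈ w.A ∧ w.r (x : K) = φ x)
    {red : ∀ i, Pt (a i : K) (b i : K) → Pt (a i : k) (b i : k)}
    (hred : ∀ i, IsRed w (a i) (b i) (red i))
    (Ω : Type) [Field Ω] [IsAlgClosed Ω] [Algebra k Ω] [Algebra.IsAlgebraic k Ω]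
    (hloc : ∀ (x : ∀ i, Pt (a i : k) (b i : k)) (y : Fin s → k), (∀ l, y l ≠ 0) →
      Fintype.card k ^ n ≤ 2 * e.factorial *
      {t : Fin n → k | HasType Ω (fun i => MvPolynomial.eval t
        (spc φ (F i) (fun i => rep (x i)) y)) σ}.ncard) :
    LocS K a b (SUn K S) (Fin n) ω (1 / (2 * (e.factorial : ℝ))) (BadT ω a b F p₁ σ) k φ w red := by
  refine ⟨fun x y => {t | ¬ HasType Ω (cf φ F (fun i => rep (x i)) y t) σ}, ?_, ?_⟩
  · intro x y hy
    have h1 := loc_bound (fun i => spc φ (F i) (fun i => rep (x i)) y) σ (hloc x y hy)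
    have h2 : ∀ t, cf φ F (fun i => rep (x i)) y t =
        fun i => MvPolynomial.eval t (spc φ (F i) (fun i => rep (x i)) y) := by
      intro t
      funext i
      exact vl_eq φ (F i) _ _ _
    simp only [h2]
    exact h1
  · intro P u _ _ c hc
    exact hc p hpp hp h12 k hcard φ hφ w hw red hred Ω

end Pool.Agent.N89.HX
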