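import Pool.Agent.N89.HX.Asm
import Pool.Agent.N89.BD.Cnt

/-! Project HX (helper89): the sieve, local part for all primes. -/

set_option autoImplicit false

namespace Pool.Agent.N89.HX

open MvPolynomial NumberField Pool.Agent.H901R3.MS Pool.Agent.W659 Pool.Agent.W659.SA
  Pool.Agent.N89.GS Pool.Agent.N89.BD WeierstrassCurve

/-- the condition on the resolvent -/
def Cnd {k : Type} [Field k] {e n : ℕ} (R : Res e) (f : Fin (e + 1) → MvPolynomial (Fin n) k) :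
    Prop := ∃ (y v : Fin n → k) (ω : Fin e → k), Irreducible
      (rs R.R (fun i => ln (f i) y v) (fun i => Polynomial.C (ω i)))

/-- the transfer and the density theorem, together -/
theorem dens {K : Type} [Field K] [NumberField K] {r s n e : ℕ} (a b : Fin r → ℤ)
    (R : Res e) (F : Fin (e + 1) → Pol (𝓞 K) r s n) {k : Type} [Field k] [Fintype k]
    (φ : 𝓞 K →+* k) (Ω : Type) [Field Ω] [IsAlgClosed Ω] [Algebra k Ω] [Algebra.IsAlgebraic k Ω]
    (htr : ∀ (V : Fin r → Fin 3 → Ω) (u : Fin s → Ω), OnB a b V u →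
      Cnd R (fun i => spc ((algebraMap k Ω).comp φ) (F i) V u))
    (hf : ∀ f : Fin (e + 1) → MvPolynomial (Fin n) k,
      (∀ i, (f i).totalDegree ≤ ∑ i, (F i).totalDegree) →
      Cnd R (fun i => MvPolynomial.map (algebraMap k Ω) (f i)) →
      ∀ σ : Equiv.Perm (Fin e), Fintype.card k ^ n ≤
      2 * e.factorial * {t : Fin n → k | HasType Ω (fun i => MvPolynomial.eval t (f i)) σ}.ncard)
    (x : ∀ i, Pt (a i : k) (b i : k)) (y : Fin s → k) (hy : ∀ l, y l ≠ 0)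
    (σ : Equiv.Perm (Fin e)) :
    Fintype.card k ^ n ≤ 2 * e.factorial *
      {t : Fin n → k | HasType Ω (fun i => MvPolynomial.eval t
        (spc φ (F i) (fun i => rep (x i)) y)) σ}.ncard := by
  refine hf _ (fun i => ?_) ?_ σ
  · exact (spc_degree φ (F i) _ _).trans (Finset.single_le_sum
      (f := fun i => (F i).totalDegree) (fun _ _ => Nat.zero_le _) (Finset.mem_univ i))
  · have h1 := htr (fun i => rep (mp (algebraMap k Ω) (x i))) (fun l => algebraMap k Ω (y l))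
      ⟨fun i => FD.onE_rep _, fun l => (map_ne_zero _).2 (hy l)⟩
    have h2 : ∀ i, spc ((algebraMap k Ω).comp φ) (F i)
        (fun i => rep (mp (algebraMap k Ω) (x i))) (fun l => algebraMap k Ω (y l)) =
        MvPolynomial.map (algebraMap k Ω) (spc φ (F i) (fun i => rep (x i)) y) := by
      intro i
      rw [← spc_map]
      congr 1
      funext i
      exact rep_mp _ _
    simp only [h2] at h1
    exact h1

theorem locS_hx_all (hFCH : S_FCH) (hTRH : S_TRH) (K : Type) [Field K] [NumberField K]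
    (r s n e : ℕ) (a b : Fin r → ℤ) (R : Res e) (F : Fin (e + 1) → Pol (𝓞 K) r s n)
    (σ₀ : K →+* ℂ) (he : 2 ≤ e)
    (hC : ∀ (V : Fin r → Fin 3 → ℂ) (u : Fin s → ℂ), OnB a b V u →
      Cnd R (fun i => spc (toC σ₀) (F i) V u)) (P₀ : ℕ) :
    ∃ p₁ : ℕ, P₀ ≤ p₁ ∧ ∀ p : ℕ, p.Prime → p₁ ≤ p → 12 ∣ p + 1 → ∀ (k : Type) [Field k] [Fintype k],
      (Fintype.card k = p ∨ Fintype.card k = p ^ 2) → ∀ φ : 𝓞 K →+* k,
      ∀ (Ω : Type) [Field Ω] [IsAlgClosed Ω] [Algebra k Ω] [Algebra.IsAlgebraic k Ω]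
        (σ : Equiv.Perm (Fin e)) (x : ∀ i, Pt (a i : k) (b i : k)) (y : Fin s → k),
        (∀ l, y l ≠ 0) → Fintype.card k ^ n ≤ 2 * e.factorial *
      {t : Fin n → k | HasType Ω (fun i => MvPolynomial.eval t
        (spc φ (F i) (fun i => rep (x i)) y)) σ}.ncard := by
  obtain ⟨p₂, hp₂⟩ := hTRH K r s n e a b R F σ₀ he hC
  obtain ⟨q₀, hq₀⟩ := hFCH e n (∑ i, (F i).totalDegree) R he
  refine ⟨P₀ + p₂ + q₀, by omega, ?_⟩
  intro p hpp hp h12 k _ _ hcard φ Ω _ _ _ _ σ x y hy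
  have hchk : CharP k p := charP_of_card hpp hcard
  have hch : CharP Ω p := charP_of_injective_algebraMap (algebraMap k Ω).injective p
  have hr : q₀ ≤ ringChar k := by
    rw [ringChar.eq k p]
    omega
  exact dens a b R F φ Ω (fun V u h => hp₂ p hpp (by omega) Ω ((algebraMap k Ω).comp φ) V u h)
    (fun f hf1 hf2 σ' => hq₀ k Ω f hf1 hr hf2 σ') x y hy σ

theorem locS_hx' (hFCH : S_FCH) (hTRH : S_TRH) (K : Type) [Field K] [NumberField K]
    (r s n e : ℕ) (a b : Fin r → ℤ) (R : Res e) (F : Fin (e + 1) → Pol (𝓞 K) r s n)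
    (σ₀ : K →+* ℂ) (he : 2 ≤ e)
    (hC : ∀ (V : Fin r → Fin 3 → ℂ) (u : Fin s → ℂ), OnB a b V u →
      Cnd R (fun i => spc (toC σ₀) (F i) V u)) (S : ℕ) (P₀ : ℕ) :
    ∃ p₁ : ℕ, P₀ ≤ p₁ ∧ ∀ (N : ℕ) (ω : Module.Basis (Fin N) ℤ (𝓞 K)) (σ : Equiv.Perm (Fin e)),
      ∀ p : ℕ, p.Prime → p₁ ≤ p → 12 ∣ p + 1 → ∀ (k : Type) [Field k] [Fintype k],
          (Fintype.card k = p ∨ Fintype.card k = p ^ 2) → ∀ φ : 𝓞 K →+* k,
          Function.Surjective φ → ∀ w : Place K k,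
          (∀ x : 𝓞 K, (x : K) ∈ w.A ∧ w.r (x : K) = φ x) →
          ∀ red : (∀ i, Pt (a i : K) (b i : K) → Pt (a i : k) (b i : k)),
          (∀ i, IsRed w (a i) (b i) (red i)) →
          LocS K a b (SUn K S) (Fin n) ω (1 / (2 * (e.factorial : ℝ))) (BadT ω a b F p₁ σ) k φ w
            red := by
  obtain ⟨p₁, hP₀, hp₁⟩ := locS_hx_all hFCH hTRH K r s n e a b R F σ₀ he hC P₀
  refine ⟨p₁, hP₀, ?_⟩
  intro N ω σ p hpp hp h12 k _ _ hcard φ hφ w hw red hred
  have hgen : ∀ (Ω : Type) [Field Ω] [IsAlgClosed Ω] [Algebra k Ω] [Algebra.IsAlgebraic k Ω],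
      LocS K a b (SUn K S) (Fin n) ω (1 / (2 * (e.factorial : ℝ))) (BadT ω a b F p₁ σ) k φ w
        red := by
    intro Ω _ _ _ _
    exact locS_hx ω a b F S p₁ σ hpp hp h12 hcard hφ hw hred Ω
      (fun x y hy => hp₁ p hpp hp h12 k hcard φ Ω σ x y hy)
  exact hgen (AlgebraicClosure k)

end Pool.Agent.N89.HX
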