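import Pool.Agent.N89.HX.Fin0
import Pool.Agent.N40.HX.RES
import Pool.Agent.N568.HX.NF
import Pool.Agent.N861.HX.WB
import Pool.Agent.N572.HX.TSZ
import Pool.Agent.N572.HX.GRP
import Pool.Agent.N803.HX.ONE
import Pool.Agent.N403.HX.FCH
import Pool.Agent.N362.HX.GEO
import Pool.Agent.N206.HX.TRH
import Pool.Agent.N141.HX.FRB
import Pool.Agent.N301.HX.PEN

/-! Project HX (helper89): everything put together. -/

set_option autoImplicit false

namespace Pool.Agent.N89.HX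

open MvPolynomial NumberField Pool.Agent.H901R3.MS Pool.Agent.W659 Pool.Agent.W659.SA
  Pool.Agent.N89.GS Pool.Agent.N89.BD WeierstrassCurve

theorem t_FCH : S_FCH := Pool.Agent.N403.HX.main Pool.Agent.N568.HX.NF.main
  Pool.Agent.N572.HX.TSZ.main (Pool.Agent.N803.HX.ONE.main Pool.Agent.N861.HX.main)

theorem t_TRH : S_TRH := Pool.Agent.N206.HX.TRH.main Pool.Agent.N568.HX.NF.main

/-- the theorem -/
theorem finHX : type_of% (finHX' Pool.Agent.N40.HX.main t_FCH Pool.Agent.N362.HX.main t_TRH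
    Pool.Agent.N141.HX.FRB.main Pool.Agent.N572.HX.GRP.main) :=
  finHX' Pool.Agent.N40.HX.main t_FCH Pool.Agent.N362.HX.main t_TRH
    Pool.Agent.N141.HX.FRB.main Pool.Agent.N572.HX.GRP.main

/-- the hypothesis for linear systems -/
theorem lin {K : Type} [Field K] (σ₀ : K →+* ℂ) {r s n e : ℕ} (he : 2 ≤ e)
    (F : Fin (e + 1) → Pol (𝓞 K) r s n) (hF : ∀ i, Aff (F i)) (V : Fin r → Fin 3 → ℂ)
    (u : Fin s → ℂ) (h : ∀ z : Fin (e + 1) → ℂ, ∃ t, cf (toC σ₀) F V u t = z) :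
    LineGal σ₀ F V u := lineGal_lin Pool.Agent.N301.PEN.main σ₀ he F hF V u h

end Pool.Agent.N89.HX
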