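import Pool.Agent.N89.HX.Asm2

/-! Project HX (helper89): the hypothesis for linear systems. -/

set_option autoImplicit false

namespace Pool.Agent.N89.HX

open MvPolynomial NumberField Pool.Agent.H901R3.MS Pool.Agent.W659 Pool.Agent.W659.SA
  Pool.Agent.N89.GS Pool.Agent.N89.BD WeierstrassCurve

/-- there is a line in the space of the parameters on which the Galois group of `F(P; t; X)` is
`S_e` -/
def LineGal {K : Type} [Field K] (σ₀ : K →+* ℂ) {r s n e : ℕ} (F : Fin (e + 1) → Pol (𝓞 K) r s n)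
    (V : Fin r → Fin 3 → ℂ) (u : Fin s → ℂ) : Prop :=
  ∃ y v : Fin n → ℂ, FullGal e (pol (cf ((RatFunc.C : ℂ →+* RatFunc ℂ).comp (toC σ₀)) F
    (fun i j => RatFunc.C (V i j)) (fun l => RatFunc.C (u l))
    (fun j => RatFunc.C (y j) + RatFunc.C (v j) * RatFunc.X)))

/-- of degree at most one in the parameters -/
def Aff {O : Type} [CommRing O] {r s n : ℕ} (F : Pol O r s n) : Prop :=
  ∀ m ∈ F.support, ∑ i, m (Sum.inr (Sum.inr i)) ≤ 1

theorem ln_eq {r s n : ℕ} {O : Type} [CommRing O] (φ : O →+* ℂ) (F : Pol O r s n)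
    (V : Fin r → Fin 3 → ℂ) (u : Fin s → ℂ) (y v : Fin n → ℂ) :
    algebraMap (Polynomial ℂ) (RatFunc ℂ) (ln (spc φ F V u) y v) =
      vl ((RatFunc.C : ℂ →+* RatFunc ℂ).comp φ) F (fun i j => RatFunc.C (V i j))
        (fun l => RatFunc.C (u l)) (fun j => RatFunc.C (y j) + RatFunc.C (v j) * RatFunc.X) := by
  rw [vl_eq, spc_map, eval_map]
  unfold ln
  rw [hom_eval₂]
  congr 1
  funext j
  simp [RatFunc.algebraMap_C, RatFunc.algebraMap_X]

theorem lineGal_cnd (hGEO : S_GEO) {K : Type} [Field K] (σ₀ : K →+* ℂ) {r s n e : ℕ} (he : 2 ≤ e)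
    (R : Res e) (F : Fin (e + 1) → Pol (𝓞 K) r s n) (V : Fin r → Fin 3 → ℂ) (u : Fin s → ℂ)
    (h : LineGal σ₀ F V u) : Cnd R (fun i => spc (toC σ₀) (F i) V u) := by
  obtain ⟨y, v, h⟩ := h
  obtain ⟨ω, hω⟩ := hGEO e R (fun i => ln (spc (toC σ₀) (F i) V u) y v) he (by
    have h1 : (fun i => algebraMap (Polynomial ℂ) (RatFunc ℂ) (ln (spc (toC σ₀) (F i) V u) y v)) =
      cf ((RatFunc.C : ℂ →+* RatFunc ℂ).comp (toC σ₀)) F
        (fun i j => RatFunc.C (V i j)) (fun l => RatFunc.C (u l))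
        (fun j => RatFunc.C (y j) + RatFunc.C (v j) * RatFunc.X) := by
      funext i
      exact ln_eq _ _ _ _ _ _
    rw [h1]
    exact h)
  exact ⟨y, v, ω, hω⟩

theorem prod_aff {A : Type} [CommRing A] {n : ℕ} (m : Fin n → ℕ) (hm : ∑ k, m k ≤ 1)
    (y z : Fin n → A) (x : A) :
    ∏ k, (y k + x * (z k - y k)) ^ m k = (1 - x) * ∏ k, y k ^ m k + x * ∏ k, z k ^ m k := by
  by_cases h0 : ∀ k, m k = 0
  · simp [h0]
  · push Not at h0
    obtain ⟨k, hk⟩ := h0
    have h1 : m k = 1 := by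
      have := Finset.single_le_sum (f := m) (fun _ _ => Nat.zero_le _) (Finset.mem_univ k)
      omega
    have h2 : ∀ j, j ≠ k → m j = 0 := by
      intro j hj
      have h3 := Finset.add_sum_erase Finset.univ m (Finset.mem_univ k)
      have h4 := Finset.single_le_sum (f := m) (fun _ _ => Nat.zero_le _)
        (Finset.mem_erase.2 ⟨hj, Finset.mem_univ j⟩)
      omega
    have h5 : ∀ w : Fin n → A, ∏ j, w j ^ m j = w k := by
      intro w
      rw [Finset.prod_eq_single k (fun j _ hj => by rw [h2 j hj, pow_zero])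
        (fun h => absurd (Finset.mem_univ k) h), h1, pow_one]
    rw [h5 (fun k => y k + x * (z k - y k)), h5, h5]
    ring

theorem aff_line {O A : Type} [CommRing O] [CommRing A] (φ : O →+* A) {r s n : ℕ}
    (F : Pol O r s n) (hF : Aff F) (V : Fin r → Fin 3 → A) (u : Fin s → A) (y z : Fin n → A)
    (x : A) : vl φ F V u (fun k => y k + x * (z k - y k)) =
      (1 - x) * vl φ F V u y + x * vl φ F V u z := by
  rw [vl_expand, vl_expand, vl_expand, Finset.mul_sum, Finset.mul_sum, ← Finset.sum_add_distrib]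
  refine Finset.sum_congr rfl fun m hm => ?_
  rw [prod_aff (fun k => m (Sum.inr (Sum.inr k))) (hF m hm)]
  ring

/-- linear systems -/
theorem lineGal_lin (hPEN : S_PEN) {K : Type} [Field K] (σ₀ : K →+* ℂ) {r s n e : ℕ} (he : 2 ≤ e)
    (F : Fin (e + 1) → Pol (𝓞 K) r s n) (hF : ∀ i, Aff (F i)) (V : Fin r → Fin 3 → ℂ)
    (u : Fin s → ℂ) (h : ∀ z : Fin (e + 1) → ℂ, ∃ t, cf (toC σ₀) F V u t = z) :
    LineGal σ₀ F V u := by
  obtain ⟨α, β, hαβ⟩ := hPEN e he
  obtain ⟨y, hy⟩ := h α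
  obtain ⟨z, hz⟩ := h (fun i => α i + β i)
  refine ⟨y, fun k => z k - y k, ?_⟩
  convert hαβ using 2
  funext i
  have h1 : (fun j => (RatFunc.C (y j) : RatFunc ℂ) + RatFunc.C (z j - y j) * RatFunc.X) =
      fun k => RatFunc.C (y k) + RatFunc.X * (RatFunc.C (z k) - RatFunc.C (y k)) := by
    funext k
    rw [map_sub]
    ring
  have h2 : ∀ t : Fin n → ℂ, vl ((RatFunc.C : ℂ →+* RatFunc ℂ).comp (toC σ₀)) (F i)
      (fun i j => RatFunc.C (V i j)) (fun l => RatFunc.C (u l)) (fun k => RatFunc.C (t k)) =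
      RatFunc.C (vl (toC σ₀) (F i) V u t) := by
    intro t
    rw [vl_map]
  unfold cf
  rw [h1, aff_line _ (F i) (hF i), h2, h2]
  have h3 : vl (toC σ₀) (F i) V u y = α i := congrFun hy i
  have h4 : vl (toC σ₀) (F i) V u z = α i + β i := congrFun hz i
  rw [h3, h4]
  simp only [map_add, map_mul, RatFunc.algebraMap_C, RatFunc.algebraMap_X]
  ring

end Pool.Agent.N89.HX
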