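import Pool.Agent.N89.HX.Main
import Pool.Agent.N89.HX.Lin
import Pool.Agent.N403.BD.SUF

/-! Project HX (helper89): everything put together, except the tasks. -/

set_option autoImplicit false

namespace Pool.Agent.N89.HX

open MvPolynomial NumberField Pool.Agent.H901R3.MS Pool.Agent.W659 Pool.Agent.W659.SA
  Pool.Agent.N89.GS Pool.Agent.N89.BD WeierstrassCurve

theorem finHX' (hRES : S_RES) (hFCH : S_FCH) (hGEO : S_GEO) (hTRH : S_TRH)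
    (hFRB : S_FRB) (hGRP : S_GRP)
    (K : Type) [Field K] [NumberField K] (N : ℕ) (ω : Module.Basis (Fin N) ℤ (𝓞 K))
    (r s n e : ℕ) (he : 2 ≤ e) (a b : Fin r → ℤ) (hab : ∀ i, a i * b i = 0 ∧ (a i ≠ 0 ∨ b i ≠ 0))
    (F : Fin (e + 1) → Pol (𝓞 K) r s n) (d : Fin r → ℕ) (hd : ∀ i, MHomog (F i) d)
    (σ₀ : K →+* ℂ)
    (hC : ∀ (V : Fin r → Fin 3 → ℂ) (u : Fin s → ℂ), OnB a b V u → LineGal σ₀ F V u) :
    (∀ S : ℕ, 1 ≤ S → ∃ c₀ : ℝ, 0 < c₀ ∧ ∃ H₀ : ℕ, ∀ H : ℕ, H₀ ≤ H →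
      (({c : Fin n × Fin N → ℤ | (∀ i, |c i| ≤ (H : ℤ)) ∧ c ∈ Bad ω a b F S}.ncard : ℕ) : ℝ) ≤
        (2 * (H : ℝ) + 1) ^ (n * N) * Real.exp (-c₀ * (Real.log H / Real.log (Real.log H)))) ∧
    ∃ E : Set (Fin n × Fin N → ℤ),
      (∃ H₀ : ℕ, ∀ H : ℕ, H₀ ≤ H → (({c : Fin n × Fin N → ℤ |
        (∀ i, |c i| ≤ (H : ℤ)) ∧ c ∈ E}.ncard : ℕ) : ℝ) ≤
        (2 * (H : ℝ) + 1) ^ (n * N) * Real.exp (-(Real.log H / Real.log (Real.log H) ^ 2))) ∧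
      ∀ S : ℕ, 1 ≤ S → (Bad ω a b F S \ E).Finite := by
  obtain ⟨R⟩ := hRES e he
  have h1 := fun S hS => mainHX hFCH hTRH hFRB hGRP Pool.Agent.N403.BDSUF.main K N ω r s n e a b
    hab R F d hd σ₀ he (fun V u h => lineGal_cnd hGEO σ₀ he R F V u (hC V u h)) S hS
  exact ⟨h1, uniHX ω a b F h1⟩

end Pool.Agent.N89.HX
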