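import Pool.Agent.N89.HX.Asm3
import Pool.Agent.N89.HX.Uni

/-! Project HX (helper89): the main theorem. -/

set_option autoImplicit false

namespace Pool.Agent.N89.HX

open MvPolynomial NumberField Pool.Agent.H901R3.MS Pool.Agent.W659 Pool.Agent.W659.SA
  Pool.Agent.N89.GS Pool.Agent.N89.BD WeierstrassCurve

theorem box_finite {n N : ℕ} (H : ℕ) : {c : Fin n × Fin N → ℤ | ∀ i, |c i| ≤ (H : ℤ)}.Finite := by
  classical
  refine Set.Finite.subset (Box (Fin n × Fin N) H).finite_toSet ?_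
  intro c hc
  rw [Finset.mem_coe]
  unfold Box
  rw [Fintype.mem_piFinset]
  intro i
  rw [Finset.mem_Icc]
  exact abs_le.1 (hc i)

theorem mainHX (hFCH : S_FCH) (hTRH : S_TRH) (hFRB : S_FRB) (hGRP : S_GRP) (hSUF : S_SUF)
    (K : Type) [Field K] [NumberField K] (N : ℕ) (ω : Module.Basis (Fin N) ℤ (𝓞 K))
    (r s n e : ℕ) (a b : Fin r → ℤ) (hab : ∀ i, a i * b i = 0 ∧ (a i ≠ 0 ∨ b i ≠ 0)) (R : Res e)
    (F : Fin (e + 1) → Pol (𝓞 K) r s n) (d : Fin r → ℕ) (hd : ∀ i, MHomog (F i) d)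
    (σ₀ : K →+* ℂ) (he : 2 ≤ e)
    (hC : ∀ (V : Fin r → Fin 3 → ℂ) (u : Fin s → ℂ), OnB a b V u →
      Cnd R (fun i => spc (toC σ₀) (F i) V u)) (S : ℕ) (hS : 1 ≤ S) :
    ∃ c₀ : ℝ, 0 < c₀ ∧ ∃ H₀ : ℕ, ∀ H : ℕ, H₀ ≤ H →
      (({c : Fin n × Fin N → ℤ | (∀ i, |c i| ≤ (H : ℤ)) ∧ c ∈ Bad ω a b F S}.ncard : ℕ) : ℝ) ≤
        (2 * (H : ℝ) + 1) ^ (n * N) * Real.exp (-c₀ * (Real.log H / Real.log (Real.log H))) := by
  obtain ⟨p₁, hp₁, hloc⟩ := locS_hx' hFCH hTRH K r s n e a b R F σ₀ he hC S (S + 1)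
  have hδ : (0 : ℝ) < 1 / (2 * (e.factorial : ℝ)) := by
    have : (0 : ℝ) < e.factorial := by exact_mod_cast e.factorial_pos
    positivity
  have hδ1 : 1 / (2 * (e.factorial : ℝ)) < 1 := by
    have : (1 : ℝ) ≤ e.factorial := by exact_mod_cast e.factorial_pos
    rw [div_lt_one (by positivity)]
    linarith
  refine union_bound (I := Equiv.Perm (Fin e)) (fun (c : Fin n × Fin N → ℤ) (H : ℕ) =>
    ∀ i, |c i| ≤ (H : ℤ)) (fun H => box_finite H) (n * N)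
    (fun σ => {c | ∃ (P : ∀ i, Pt (a i : K) (b i : K)) (u : Fin s → Kˣ), (∀ l, u l ∈ SUn K S) ∧
        c ∈ BadT ω a b F p₁ σ P u}) (fun σ => ?_) (Bad ω a b F S)
    (bad_sub hFRB hGRP ω a b hab F d hd S p₁ hS hp₁ he)
  have h1 := step1 K a b hab (SUn K S) (hSUF K S hS) (Fin n) N ω _ hδ hδ1 p₁
    (BadT ω a b F p₁ σ) (hloc N ω σ)
  rw [Fintype.card_fin] at h1
  exact h1

/-- one exceptional set for all `S` -/
theorem uniHX {K : Type} [Field K] [NumberField K] {N r s n e : ℕ}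
    (ω : Module.Basis (Fin N) ℤ (𝓞 K)) (a b : Fin r → ℤ) (F : Fin (e + 1) → Pol (𝓞 K) r s n)
    (hM : ∀ S : ℕ, 1 ≤ S → ∃ c₀ : ℝ, 0 < c₀ ∧ ∃ H₀ : ℕ, ∀ H : ℕ, H₀ ≤ H →
      (({c : Fin n × Fin N → ℤ | (∀ i, |c i| ≤ (H : ℤ)) ∧ c ∈ Bad ω a b F S}.ncard : ℕ) : ℝ) ≤
        (2 * (H : ℝ) + 1) ^ (n * N) * Real.exp (-c₀ * (Real.log H / Real.log (Real.log H)))) :
    ∃ E : Set (Fin n × Fin N → ℤ),
      (∃ H₀ : ℕ, ∀ H : ℕ, H₀ ≤ H → (({c : Fin n × Fin N → ℤ |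
        (∀ i, |c i| ≤ (H : ℤ)) ∧ c ∈ E}.ncard : ℕ) : ℝ) ≤
        (2 * (H : ℝ) + 1) ^ (n * N) * Real.exp (-(Real.log H / Real.log (Real.log H) ^ 2))) ∧
      ∀ S : ℕ, 1 ≤ S → (Bad ω a b F S \ E).Finite := by
  classical
  obtain ⟨E, hE1, hE2⟩ := diag (X := Fin n × Fin N → ℤ) (I := {S : ℕ // 1 ≤ S})
    (fun (c : Fin n × Fin N → ℤ) (H : ℕ) => ∀ i, |c i| ≤ (H : ℤ))
    (fun c H H' h hc i => (hc i).trans (by exact_mod_cast h))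
    (fun H => box_finite H) (n * N) (fun S => Bad ω a b F S.1) (fun S => hM S.1 S.2)
  exact ⟨E, hE1, fun S hS => hE2 ⟨S, hS⟩⟩

end Pool.Agent.N89.HX
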